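import Pool.Agent.Lib.H36R.CY
import Pool.Agent.Lib.H36R.CQ
import Pool.Agent.Lib.LD.Def

/-!
# H56CV, file A: two vertices of a 2-connected graph lie on one cycle (MP_33911d, form D with cycles of length at least 5)

`H47G5.OneCyc E {a, b}` in the unfolded form: see `pair_raw`.
-/

set_option autoImplicit false

namespace H56CV

open Finset H98M H85TF H36R

section close

variable {V : Type*} [DecidableEq V]

/-- A path from `a` to `c` which avoids `z`, closed by the edges `z a`, `z c`. -/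
theorem close_path {E : Finset (Sym2 V)} {z a c : V}
    (r : (SimpleGraph.fromEdgeSet (E : Set (Sym2 V))).Walk a c) (hr : r.IsPath) (hac : a ≠ c)
    (hrz : ∀ x ∈ r.support, x ≠ z) (hza : s(z, a) ∈ E) (hzc : s(z, c) ∈ E) :
    ∃ F ⊆ E, (∀ v, dg F v = 0 ∨ dg F v = 2) ∧ dg F z = 2 ∧ (∀ x ∈ r.support, dg F x = 2) ∧
      ∀ T : Finset V, (∀ a ∈ T, ∀ b, s(a, b) ∈ F → b ∈ T) → ∀ x ∈ T, dg F x ≠ 0 →
        ∀ y, dg F y ≠ 0 → y ∈ T := by
  have haz : a ≠ z := hrz a r.start_mem_support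
  have hcz : c ≠ z := hrz c r.end_mem_support
  have hn1 : s(z, c) ∉ (∅ : Finset (Sym2 V)) := notMem_empty _
  have hn2 : s(z, a) ∉ insert s(z, c) (∅ : Finset (Sym2 V)) := by
    intro h
    rcases mem_insert.1 h with h | h
    · rw [Sym2.eq_iff] at h
      rcases h with h | h
      · exact hac h.2
      · exact hcz h.1.symm
    · exact notMem_empty _ h
  have key : ∀ x, dg (insert s(z, a) (insert s(z, c) (∅ : Finset (Sym2 V)))) x =
      (if x = z ∨ x = c then 1 else 0) + if x = z ∨ x = a then 1 else 0 := by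
    intro x
    rw [dg_insert hn2, dg_insert hn1]
    simp [dg]
  obtain ⟨F', h1, h2, h4, h5, h6, h7, h8⟩ := addPath2 r hr (insert s(z, a) (insert s(z, c) ∅))
    (insert_subset hza (insert_subset hzc (empty_subset _))) hac
    (by
      intro h
      rcases mem_insert.1 h with h | h
      · rw [Sym2.eq_iff] at h
        rcases h with h | h
        · exact haz h.1
        · exact hcz h.2
      · rcases mem_insert.1 h with h | h
        · rw [Sym2.eq_iff] at h
          rcases h with h | h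
          · exact haz h.1
          · exact hac h.1
        · exact notMem_empty _ h)
    (by rw [key]; simp [haz, hac])
    (by rw [key]; simp [hcz, Ne.symm hac])
    (by
      intro x hx1 hx2
      rw [key]
      by_cases hx : x = z
      · subst hx; simp
      · simp [hx, hx1, hx2])
    (by
      intro x hx hx1 hx2
      rw [key]
      simp [hrz x hx, hx1, hx2])
  have hz2 : dg F' z = 2 := h5 z (by rw [key]; simp)
  refine ⟨F', h1, h2, hz2, h4, ?_⟩
  intro T hT x hx hx0 y hy0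
  have hwalk := walk_closed (F := F') (T := T) hT r h7
  have hin : ∀ v, dg F' v ≠ 0 → v ≠ z → v ∈ r.support := by
    intro v hv hvz
    rcases h8 v hv with h9 | h9
    · rw [key] at h9
      by_cases h10 : v = c
      · rw [h10]
        exact r.end_mem_support
      · by_cases h11 : v = a
        · rw [h11]
          exact r.start_mem_support
        · exact absurd (by simp [hvz, h10, h11]) h9
    · exact h9
  have hza' : z ∈ T ↔ a ∈ T :=
    ⟨fun h => hT z h a (h6 (mem_insert_self _ _)), fun h => hT a h z (by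
      rw [Sym2.eq_swap]
      exact h6 (mem_insert_self _ _))⟩
  have hall : ∀ v, dg F' v ≠ 0 → (v ∈ T ↔ a ∈ T) := by
    intro v hv
    by_cases hvz : v = z
    · rw [hvz]
      exact hza'
    · exact hwalk v (hin v hv hvz)
  exact (hall y hy0).2 ((hall x hx0).1 hx)

/-- In a 2-connected graph every vertex has a neighbour different from a given other vertex. -/
theorem nb_ne {E : Finset (Sym2 V)} {Y : Finset V} (hT : LD.TCY E Y) {z w : V} (hz : z ∈ Y) (hw : w ∈ Y)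
    (hzw : z ≠ w) : ∃ c ∈ Y, c ≠ z ∧ c ≠ w ∧ s(z, c) ∈ E := by
  by_contra hcon
  push Not at hcon
  refine hT.conn' w hw ⟨{z}, (Y.erase w).erase z, singleton_nonempty z, ?_, ?_, ?_, ?_⟩
  · rw [← card_pos, card_erase_of_mem (mem_erase.2 ⟨hzw, hz⟩), card_erase_of_mem hw]
    have := hT.three
    omega
  · exact disjoint_singleton_left.2 (notMem_erase z _)
  · rw [singleton_union, insert_erase (mem_erase.2 ⟨hzw, hz⟩)]
  · intro x hx y hy
    rw [mem_singleton] at hx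
    subst hx
    rw [mem_erase, mem_erase] at hy
    exact hcon y hy.2.2 hy.1 hy.2.1

/-- Adjacent vertices of a 2-connected graph lie on one cycle. -/
theorem pair_adj {E : Finset (Sym2 V)} {Y : Finset V} (hT : LD.TCY E Y) {z w : V} (hz : z ∈ Y) (hw : w ∈ Y)
    (hzw : z ≠ w) (hadj : s(z, w) ∈ E) :
    ∃ F ⊆ E, (∀ v, dg F v = 0 ∨ dg F v = 2) ∧ dg F z = 2 ∧ dg F w = 2 ∧
      ∀ T : Finset V, (∀ a ∈ T, ∀ b, s(a, b) ∈ F → b ∈ T) → ∀ x ∈ T, dg F x ≠ 0 →
        ∀ y, dg F y ≠ 0 → y ∈ T := by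
  obtain ⟨c, hcY, hcz, hcw, hzc⟩ := nb_ne hT hz hw hzw
  obtain ⟨p, hp, hpY⟩ := path_of_not_disc (hT.conn' z hz) (mem_erase.2 ⟨hcz, hcY⟩)
    (mem_erase.2 ⟨Ne.symm hzw, hw⟩)
  obtain ⟨F, h1, h2, h3, h4, h5⟩ := close_path p hp hcw (fun x hx => (mem_erase.1 (hpY x hx)).1) hzc hadj
  exact ⟨F, h1, h2, h3, h4 w p.end_mem_support, h5⟩

end close

/-- Two different vertices of a 2-connected graph which are not adjacent lie on one cycle. -/
theorem pair_nadj {V : Type} [DecidableEq V] {E : Finset (Sym2 V)} {Y : Finset V} (hT : LD.TCY E Y) {z w : V}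
    (hzY : z ∈ Y) (hwY : w ∈ Y) (hzw : z ≠ w) (hn : s(z, w) ∉ E) :
    ∃ F ⊆ E, (∀ v, dg F v = 0 ∨ dg F v = 2) ∧ dg F z = 2 ∧ dg F w = 2 ∧
      ∀ T : Finset V, (∀ a ∈ T, ∀ b, s(a, b) ∈ F → b ∈ T) → ∀ x ∈ T, dg F x ≠ 0 →
        ∀ y, dg F y ≠ 0 → y ∈ T := by
  classical
  have hc := hT.conn
  have hcut := hT.conn'
  set G := SimpleGraph.fromEdgeSet (E : Set (Sym2 V)) with hG
  have hadj : ∀ a b, G.Adj a b ↔ s(a, b) ∈ E ∧ a ≠ b := by
    intro a b
    rw [hG, SimpleGraph.fromEdgeSet_adj]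
    exact and_congr (by exact_mod_cast Iff.rfl) Iff.rfl
  obtain ⟨S, hS'⟩ : ∃ S : Finset V, ∀ x, x ∈ S ↔ x ∈ Y ∧ x ≠ z ∧ x ≠ w :=
    ⟨Y.filter fun x => x ≠ z ∧ x ≠ w, fun x => by simp⟩
  have hS : ∀ x, x ∈ S → x ≠ z ∧ x ≠ w := fun x hx => ((hS' x).1 hx).2
  obtain ⟨A, hA⟩ : ∃ A : Finset V, ∀ x, x ∈ A ↔ x ∈ S ∧ s(z, x) ∈ E :=
    ⟨S.filter fun x => s(z, x) ∈ E, fun x => by simp⟩
  obtain ⟨B, hB⟩ : ∃ B : Finset V, ∀ x, x ∈ B ↔ x ∈ S ∧ s(w, x) ∈ E :=
    ⟨S.filter fun x => s(w, x) ∈ E, fun x => by simp⟩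
  obtain ⟨C, D, hCS, hDS, hC, hD, ⟨a, haC, haA⟩, ⟨b, hbC, hbB⟩, ⟨c, hcD, hcA⟩, ⟨d, hdD, hdB⟩, hCD⟩ :=
    two_link G S A B (fun x hx => ((hA x).1 hx).1) (fun x hx => ((hB x).1 hx).1) (by
      intro Z U hZ hU hAU hUB hcl
      by_contra hlt
      have hdisc : Disc (Y \ Z) E := by
        refine disc_of_sepY hzY hwY hzw hn (fun h => (hS z (hZ h)).1 rfl) (fun h => (hS w (hZ h)).2 rfl)
          (U := U) (fun x hx => ⟨((hS' x).1 (hU x hx).1).1, (hS x (hU x hx).1).1, (hS x (hU x hx).1).2,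
            (hU x hx).2⟩) ?_ ?_ ?_
        · intro x hxY hx h1 h2 h4
          exact hAU x ((hA x).2 ⟨(hS' x).2 ⟨hxY, h1, h2⟩, hx⟩) h4
        · intro x hx h1
          exact hUB x hx ((hB x).2 ⟨(hU x hx).1, h1⟩)
        · intro x hx y hyY h1 h2 h4 h5 h6
          refine hcl x hx y ((hS' y).2 ⟨hyY, h1, h2⟩) h4 h5 ((hadj x y).2 ⟨h6, ?_⟩)
          rintro rfl
          exact h5 hx
      have hcard : Z.card = 0 ∨ Z.card = 1 := by omega
      rcases hcard with h0 | h1
      · rw [card_eq_zero] at h0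
        subst h0
        rw [sdiff_empty] at hdisc
        exact hc hdisc
      · obtain ⟨v, rfl⟩ := card_eq_one.1 h1
        rw [sdiff_singleton_eq_erase] at hdisc
        exact hcut v ((hS' v).1 (hZ (mem_singleton_self v))).1 hdisc)
  obtain ⟨p, hp, hpC⟩ := path_of_not_disc (not_disc_of_conn hC) haC hbC
  obtain ⟨q, hq, hqD⟩ := path_of_not_disc (not_disc_of_conn hD) hdD hcD
  have hbw : G.Adj b w := (hadj b w).2 ⟨by rw [Sym2.eq_swap]; exact ((hB b).1 hbB).2,
    (hS b ((hB b).1 hbB).1).2⟩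
  have hwd : G.Adj w d := (hadj w d).2 ⟨((hB d).1 hdB).2, Ne.symm (hS d ((hB d).1 hdB).1).2⟩
  have hac : a ≠ c := by
    rintro rfl
    exact hCD a haC hcD
  set r := p.append (SimpleGraph.Walk.cons hbw (SimpleGraph.Walk.cons hwd q)) with hr
  have hsup : r.support = p.support ++ (w :: q.support) := by
    rw [hr, SimpleGraph.Walk.support_append]
    simp
  have hrp : r.IsPath := by
    rw [SimpleGraph.Walk.isPath_def, hsup]
    refine List.Nodup.append (by rw [← SimpleGraph.Walk.isPath_def]; exact hp) ?_ ?_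
    · rw [List.nodup_cons]
      exact ⟨fun h => (hS w (hDS (hqD w h))).2 rfl, by rw [← SimpleGraph.Walk.isPath_def]; exact hq⟩
    · intro x hx hx'
      rcases List.mem_cons.1 hx' with rfl | hx'
      · exact (hS x (hCS (hpC x hx))).2 rfl
      · exact hCD x (hpC x hx) (hqD x hx')
  have hrz : ∀ x ∈ r.support, x ≠ z := by
    intro x hx
    rw [hsup, List.mem_append, List.mem_cons] at hx
    rcases hx with hx | rfl | hx
    · exact (hS x (hCS (hpC x hx))).1
    · exact Ne.symm hzw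
    · exact (hS x (hDS (hqD x hx))).1
  obtain ⟨F, h1, h2, h3, h4, h5⟩ := close_path r hrp hac hrz ((hA a).1 haA).2 ((hA c).1 hcA).2
  exact ⟨F, h1, h2, h3, h4 w (by rw [hsup]; simp), h5⟩

/-- TWO VERTICES OF A 2-CONNECTED GRAPH LIE ON ONE CYCLE. -/
theorem pair_raw {V : Type} [DecidableEq V] {E : Finset (Sym2 V)} {Y : Finset V} (hT : LD.TCY E Y) {z w : V}
    (hz : z ∈ Y) (hw : w ∈ Y) :
    ∃ F ⊆ E, (∀ v, dg F v = 0 ∨ dg F v = 2) ∧ dg F z = 2 ∧ dg F w = 2 ∧
      ∀ T : Finset V, (∀ a ∈ T, ∀ b, s(a, b) ∈ F → b ∈ T) → ∀ x ∈ T, dg F x ≠ 0 →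
        ∀ y, dg F y ≠ 0 → y ∈ T := by
  by_cases hzw : z = w
  · subst hzw
    obtain ⟨u, hu, huz⟩ : ∃ u ∈ Y, u ≠ z := by
      by_contra hcon
      push Not at hcon
      have h1 : Y ⊆ {z} := fun x hx => mem_singleton.2 (hcon x hx)
      have h2 := card_le_card h1
      rw [card_singleton] at h2
      have := hT.three
      omega
    obtain ⟨c, hcY, hcz, -, hzc⟩ := nb_ne hT hz hu (Ne.symm huz)
    obtain ⟨F, h1, h2, h3, -, h5⟩ := pair_adj hT hz hcY (Ne.symm hcz) hzc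
    exact ⟨F, h1, h2, h3, h3, h5⟩
  · by_cases hn : s(z, w) ∈ E
    · exact pair_adj hT hz hw hzw hn
    · exact pair_nadj hT hz hw hzw hn

end H56CV
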