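import Pool.Agent.Lib.H56CV.X1
import Pool.Agent.Lib.H9TP.C5

/-!
# H56CV, file X: the exchange for `Cv` (cycles of length at least five, or one cycle) in 2-connected graphs
-/

set_option autoImplicit false
set_option linter.unusedSectionVars false

namespace H56CV

open Finset H98M H85TF H36R H47G5

variable {V : Type*} [Fintype V] [DecidableEq V]

theorem half {E : Finset (Sym2 V)} {Y A U : Finset V} {b d : V} (hT : LD.TCY E Y)
    (hone : OneCyc E (insert b A)) (hn5 : ¬ H8F.Cov5 E (insert b A)) (hd : Cv E (insert d A))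
    (hU : ¬ Disc U E) (hbU : b ∈ U) (hdU : d ∈ U)
    (hin : ∀ u ∈ U, u ≠ b → u ≠ d → ¬ OneCyc E (insert u A)) : OneCyc E (insert b (insert d A)) := by
  classical
  have hE := hT.loop
  obtain ⟨F0, hF0, hO0, hA0⟩ := hone
  obtain ⟨F, hFm, hmax⟩ := (E.powerset.filter fun F => OneF F ∧ ∀ v ∈ insert b A, dg F v = 2).exists_max_image
    (fun F => (univ.filter fun v => dg F v = 2).card) ⟨F0, mem_filter.2 ⟨mem_powerset.2 hF0, hO0, hA0⟩⟩
  rw [mem_filter, mem_powerset] at hFm
  obtain ⟨hF, hO, hA⟩ := hFm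
  obtain ⟨C, hC⟩ : ∃ C : Finset V, C = univ.filter fun v => dg F v = 2 := ⟨_, rfl⟩
  have memC : ∀ {v}, v ∈ C ↔ dg F v = 2 := by intro v; rw [hC, mem_filter]; simp
  have sw : ∀ {F : Finset (Sym2 V)} {a b : V}, s(a, b) ∈ F → s(b, a) ∈ F := fun h => by
    rw [Sym2.eq_swap]; exact h
  have hd2 : ∀ {a b : V}, s(a, b) ∈ F → a ∈ C := fun h => memC.2 ((hO.1 _).resolve_left (dg_pos h).ne')
  have hd2' : ∀ {a b : V}, s(a, b) ∈ F → b ∈ C := fun h => memC.2 ((hO.1 _).resolve_left (dg_pos' h).ne')
  have hne : ∀ {a b : V}, s(a, b) ∈ E → a ≠ b := fun h e => hE _ h (by simpa using e)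
  have hbC : b ∈ C := memC.2 (hA b (mem_insert_self _ _))
  have hAC : ∀ v ∈ A, v ∈ C := fun v hv => memC.2 (hA v (mem_insert_of_mem hv))
  have hc4 : C.card ≤ 4 := by
    by_contra h
    exact hn5 (H63B.cov5_of_one hE hF hO hA (by rw [← hC]; omega))
  have hCY : C ⊆ Y := by
    intro v hv
    obtain ⟨a, b, -, ha, -⟩ := H63B.two_nb (memC.1 hv)
    exact hT.sub _ (hF ha) v (by simp)
  -- maximality
  have hmx : ∀ F' ⊆ E, OneF F' → (∀ v ∈ C, dg F' v = 2) → ∀ w, dg F' w = 2 → w ∈ C := by
    intro F' h1 h2 h3 w hw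
    by_contra hwC
    have h4 := hmax F' (mem_filter.2 ⟨mem_powerset.2 h1, h2, fun v hv => h3 v (memC.2 (hA v hv))⟩)
    rw [← hC] at h4
    have h5 : insert w C ⊆ univ.filter fun v => dg F' v = 2 := by
      intro v hv
      rw [mem_filter]
      refine ⟨mem_univ _, ?_⟩
      rcases mem_insert.1 hv with h | h
      · rw [h]; exact hw
      · exact h3 v h
    have h6 := card_le_card h5
    rw [card_insert_of_notMem hwC] at h6
    omega
  have hzero : ∀ v, v ∉ C → dg F v = 0 := fun v hv => (hO.1 v).resolve_right fun h => hv (memC.2 h)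
  -- no connected set outside `C` has two neighbours adjacent on `C`
  have hadj : ∀ K : Finset V, ¬ Disc K E → (∀ k ∈ K, k ∉ C) → ∀ x y kx ky, s(x, y) ∈ F → kx ∈ K → ky ∈ K →
      s(x, kx) ∈ E → s(y, ky) ∈ E → False := by
    intro K hK hKC x y kx ky hxy hkx hky h1 h2
    obtain ⟨F', g1, g2, g3, g4, -⟩ := ext_conn hE hF hO hK (fun k hk => hzero k (hKC k hk)) hxy hkx hky h1 h2
    exact hKC kx hkx (hmx F' g1 g2 (fun v hv => g3 v (memC.1 hv)) kx g4)
  by_cases hdC : d ∈ C
  · refine ⟨F, hF, hO, fun v hv => ?_⟩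
    rcases mem_insert.1 hv with h | h
    · rw [h]; exact memC.1 hbC
    · rcases mem_insert.1 h with h | h
      · rw [h]; exact memC.1 hdC
      · exact memC.1 (hAC v h)
  -- an edge of `U` which leaves `C`
  obtain ⟨u, huU, huC, hbu⟩ : ∃ u ∈ U, u ∉ C ∧ s(b, u) ∈ E := by
    by_contra hcon
    push Not at hcon
    refine hU ⟨U ∩ C, U \ C, ⟨b, mem_inter.2 ⟨hbU, hbC⟩⟩, ⟨d, mem_sdiff.2 ⟨hdU, hdC⟩⟩, ?_, ?_, ?_⟩
    · exact disjoint_left.2 fun x hx hx' => (mem_sdiff.1 hx').2 (mem_inter.1 hx).2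
    · ext x
      simp only [mem_union, mem_inter, mem_sdiff]
      tauto
    · intro x hx y hy hxy
      rw [mem_inter] at hx
      rw [mem_sdiff] at hy
      by_cases hxb : x = b
      · subst hxb
        exact hcon y hy.1 hy.2 hxy
      · refine hin x hx.1 hxb (fun h => hdC (h ▸ hx.2)) ⟨F, hF, hO, fun v hv => ?_⟩
        rcases mem_insert.1 hv with h | h
        · rw [h]; exact memC.1 hx.2
        · exact memC.1 (hAC v h)
  have huY : u ∈ Y := hT.sub _ hbu u (by simp)
  -- a cycle through `A`, `b` and `u` is enough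
  have hfin : ∀ F' ⊆ E, OneF F' → (∀ v ∈ A, dg F' v = 2) → dg F' b = 2 → dg F' u = 2 →
      OneCyc E (insert b (insert d A)) := by
    intro F' g1 g2 g3 g4 g5
    by_cases hud : u = d
    · refine ⟨F', g1, g2, fun v hv => ?_⟩
      rcases mem_insert.1 hv with h | h
      · rw [h]; exact g4
      · rcases mem_insert.1 h with h | h
        · rw [h, ← hud]; exact g5
        · exact g3 v h
    · refine absurd ⟨F', g1, g2, fun v hv => ?_⟩ (hin u huU (fun h => huC (h ▸ hbC)) hud)
      rcases mem_insert.1 hv with h | h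
      · rw [h]; exact g5
      · exact g3 v h
  obtain ⟨K, hKS, huK, hK, hKcl⟩ := comp (E := E) (mem_sdiff.2 ⟨huY, huC⟩)
  have hKC : ∀ k ∈ K, k ∉ C := fun k hk => (mem_sdiff.1 (hKS hk)).2
  obtain ⟨p0, q0, hpq0, hbp0, hbq0⟩ := H63B.two_nb (memC.1 hbC)
  obtain ⟨c, hcC, hcb, kc, hkc, hckc⟩ := second hT hKS ⟨u, huK⟩ hKcl hbC (hCY hbC) (hd2' hbp0) (hCY (hd2' hbp0))
    (hne (hF hbp0)).symm
  have hbc : s(b, c) ∉ F := fun h => hadj K hK hKC b c u kc h huK hkc hbu hckc
  have hcp0 : c ≠ p0 := fun h => hbc (h ▸ hbp0)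
  have hcq0 : c ≠ q0 := fun h => hbc (h ▸ hbq0)
  have hbp0' := hne (hF hbp0)
  have hbq0' := hne (hF hbq0)
  have hC4 : ({b, p0, q0, c} : Finset V) = C := by
    refine eq_of_subset_of_card_le ?_ ?_
    · intro v hv
      simp only [mem_insert, mem_singleton] at hv
      rcases hv with h | h | h | h
      · rw [h]; exact hbC
      · rw [h]; exact hd2' hbp0
      · rw [h]; exact hd2' hbq0
      · rw [h]; exact hcC
    · have : ({b, p0, q0, c} : Finset V).card = 4 := by
        rw [card_insert_of_notMem, card_insert_of_notMem, card_insert_of_notMem, card_singleton]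
        · simpa using Ne.symm hcq0
        · simp only [mem_insert, mem_singleton, not_or]
          exact ⟨hpq0, Ne.symm hcp0⟩
        · simp only [mem_insert, mem_singleton, not_or]
          exact ⟨hbp0', hbq0', Ne.symm hcb⟩
      omega
  have hC4' : ∀ v ∈ C, v = b ∨ v = p0 ∨ v = q0 ∨ v = c := by
    intro v hv
    rw [← hC4] at hv
    simpa using hv
  obtain ⟨x, y, hxy, hcx, hcy⟩ := H63B.two_nb (memC.1 hcC)
  have hxin : ∀ x, s(c, x) ∈ F → x = p0 ∨ x = q0 := by
    intro x hx
    rcases hC4' x (hd2' hx) with h | h | h | h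
    · exact absurd (sw (h ▸ hx)) hbc
    · exact Or.inl h
    · exact Or.inr h
    · exact absurd h.symm (hne (hF hx))
  have hcpq : s(c, p0) ∈ F ∧ s(c, q0) ∈ F := by
    rcases hxin x hcx with h | h <;> rcases hxin y hcy with h' | h'
    · exact absurd (h.trans h'.symm) hxy
    · exact ⟨h ▸ hcx, h' ▸ hcy⟩
    · exact ⟨h' ▸ hcy, h ▸ hcx⟩
    · exact absurd (h.trans h'.symm) hxy
  obtain ⟨r, hr, hru, hrk, hrK⟩ := route hK (fun h => hKC b h hbC) (fun h => hKC c h hcC) (Ne.symm hcb) huK hkc
    hbu hckc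
  have side : ∀ p q, p ≠ q → s(b, p) ∈ F → s(b, q) ∈ F → s(c, p) ∈ F → s(c, q) ∈ F →
      (∀ v ∈ C, v = b ∨ v = p ∨ v = q ∨ v = c) →
      (q ∈ A ∨ OneCyc E (insert b (insert d A))) ∧ ∀ w, s(q, w) ∈ E → w = b ∨ w = c := by
    intro p q hpq hbp hbq hcp hcq hCC
    have hbp' := hne (hF hbp)
    have hbq' := hne (hF hbq)
    have hcp' := hne (hF hcp)
    have hcq' := hne (hF hcq)
    have hpC := hd2' hbp
    have hqC := hd2' hbq
    have offr : ∀ z ∈ C, z ≠ b → z ≠ c → ∀ x ∈ r.support, x ≠ z := by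
      intro z hz h1 h2 x hx h3
      subst h3
      rcases hrK x hx with h | h | h
      · exact h1 h
      · exact h2 h
      · exact hKC x h hz
    obtain ⟨D, hD1, hD2, hDp, hDr, hDpb, hDpc, hDs⟩ := close_path2 r hr (Ne.symm hcb)
      (offr p hpC (Ne.symm hbp') (Ne.symm hcp')) (sw (hF hbp)) (sw (hF hcp))
    have hDb := hDr b r.start_mem_support
    have hDc := hDr c r.end_mem_support
    have hDu := hDr u hru
    refine ⟨?_, ?_⟩
    · by_cases hqA : q ∈ A
      · exact Or.inl hqA
      · right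
        refine hfin D hD1 hD2 (fun v hv => ?_) hDb hDu
        rcases hCC v (hAC v hv) with h | h | h | h
        · rw [h]; exact hDb
        · rw [h]; exact hDp
        · exact absurd (h ▸ hv) hqA
        · rw [h]; exact hDc
    · intro w hqw
      by_contra hcon
      rw [not_or] at hcon
      have hwY : w ∈ Y := hT.sub _ hqw w (by simp)
      by_cases hwC : w ∈ C
      · rcases hCC w hwC with h | h | h | h
        · exact hcon.1 h
        · -- the chord `q p`
          subst h
          obtain ⟨F', g1, g2, g3, g4, -⟩ := ext_conn hE hD1 hD2 (K := {q}) (H30D.not_disc_singleton q)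
            (by
              intro k hk
              rw [mem_singleton] at hk
              subst hk
              by_contra h0
              rcases hDs k h0 with h | h
              · exact hpq h.symm
              · exact offr k hqC (Ne.symm hbq') (Ne.symm hcq') k h rfl)
            hDpc (mem_singleton_self q) (mem_singleton_self q) (sw hqw) (hF hcq)
          refine huC (hmx F' g1 g2 (fun v hv => ?_) u (g3 u hDu))
          rcases hCC v hv with h | h | h | h
          · rw [h]; exact g3 b hDb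
          · rw [h]; exact g3 w hDp
          · rw [h]; exact g4
          · rw [h]; exact g3 c hDc
        · exact hne hqw h.symm
        · exact hcon.2 h
      · by_cases hwK : w ∈ K
        · exact hadj K hK hKC b q u w hbq huK hwK hbu hqw
        · obtain ⟨K', hKS', hwK', hK', hKcl'⟩ := comp (E := E) (mem_sdiff.2 ⟨hwY, hwC⟩)
          have hKC' : ∀ k ∈ K', k ∉ C := fun k hk => (mem_sdiff.1 (hKS' hk)).2
          have hKK : ∀ k ∈ K', k ∉ K := fun k hk hk' => hwK (inside hK' hKS' hKcl hk' hk hwK')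
          obtain ⟨c', hc'C, hc'q, k', hk', hck'⟩ := second hT hKS' ⟨w, hwK'⟩ hKcl' hqC (hCY hqC) hbC (hCY hbC) hbq'
          rcases hCC c' hc'C with h | h | h | h
          · subst h
            exact hadj K' hK' hKC' q c' w k' (sw hbq) hwK' hk' hqw hck'
          · -- `K'` is attached at `p` and `q`
            subst h
            obtain ⟨D', hE1, hE2, hEq, hEr, hEqb, hEqc, hEs⟩ := close_path2 r hr (Ne.symm hcb)
              (offr q hqC (Ne.symm hbq') (Ne.symm hcq')) (sw (hF hbq)) (sw (hF hcq))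
            obtain ⟨F', g1, g2, g3, g4, g5⟩ := ext_conn hE hE1 hE2 (K := insert c' K')
              (H63B.conn_insert hK' hk' (sw hck'))
              (by
                intro k hk
                by_contra h0
                rcases hEs k h0 with h | h
                · subst h
                  rcases mem_insert.1 hk with h | h
                  · exact hpq h.symm
                  · exact hKC' k h hqC
                · rcases mem_insert.1 hk with h' | h'
                  · exact offr c' hpC (Ne.symm hbp') (Ne.symm hcp') k h h'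
                  · rcases hrK k h with h2 | h2 | h2
                    · exact hKC' k h' (h2 ▸ hbC)
                    · exact hKC' k h' (h2 ▸ hcC)
                    · exact hKK k h' h2)
              hEqb (mem_insert_of_mem hwK') (mem_insert_self _ _) hqw (hF hbp)
            refine huC (hmx F' g1 g2 (fun v hv => ?_) u (g3 u (hEr u hru)))
            rcases hCC v hv with h | h | h | h
            · rw [h]; exact g3 b (hEr b r.start_mem_support)
            · rw [h]; exact g5
            · rw [h]; exact g3 q hEq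
            · rw [h]; exact g3 c (hEr c r.end_mem_support)
          · exact hc'q h
          · subst h
            exact hadj K' hK' hKC' q c' w k' (sw hcq) hwK' hk' hqw hck'
  obtain ⟨s1, s2⟩ := side p0 q0 hpq0 hbp0 hbq0 hcpq.1 hcpq.2 hC4'
  obtain ⟨t1, t2⟩ := side q0 p0 (Ne.symm hpq0) hbq0 hbp0 hcpq.2 hcpq.1 (fun v hv => by
    rcases hC4' v hv with h | h | h | h
    · exact Or.inl h
    · exact Or.inr (Or.inr (Or.inl h))
    · exact Or.inr (Or.inl h)
    · exact Or.inr (Or.inr (Or.inr h)))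
  rcases s1 with hqA | h
  swap
  · exact h
  rcases t1 with hpA | h
  swap
  · exact h
  exfalso
  have two : ∀ (F2 : Finset (Sym2 V)), F2 ⊆ E → ∀ q, (∀ w, s(q, w) ∈ E → w = b ∨ w = c) → dg F2 q = 2 →
      s(q, b) ∈ F2 ∧ s(q, c) ∈ F2 := by
    intro F2 hF2 q hq h2
    obtain ⟨x, y, hxy, hx, hy⟩ := H63B.two_nb h2
    rcases hq x (hF2 hx) with h | h <;> rcases hq y (hF2 hy) with h' | h'
    · exact absurd (h.trans h'.symm) hxy
    · exact ⟨h ▸ hx, h' ▸ hy⟩
    · exact ⟨h' ▸ hy, h ▸ hx⟩
    · exact absurd (h.trans h'.symm) hxy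
  rcases hd with ⟨F2, hF2, hdeg, -, hq4, hcov⟩ | ⟨F2, hF2, hO2, hcov⟩
  · obtain ⟨a1, a2⟩ := two F2 hF2 q0 s2 (hcov q0 (mem_insert_of_mem hqA))
    obtain ⟨a3, a4⟩ := two F2 hF2 p0 t2 (hcov p0 (mem_insert_of_mem hpA))
    exact hq4 b q0 c p0 (Ne.symm hcb) (Ne.symm hpq0) (sw a1) a2 (sw a4) a3
  · obtain ⟨a1, a2⟩ := two F2 hF2 q0 s2 (hcov q0 (mem_insert_of_mem hqA))
    obtain ⟨a3, a4⟩ := two F2 hF2 p0 t2 (hcov p0 (mem_insert_of_mem hpA))
    have hb2 : dg F2 b = 2 := (hO2.1 b).resolve_left (dg_pos' a1).ne'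
    have hc2 : dg F2 c = 2 := (hO2.1 c).resolve_left (dg_pos' a2).ne'
    refine hdC (hO2.2 C ?_ q0 (hd2' hbq0) (dg_pos a1).ne' d ?_)
    · intro a ha x hx
      rcases hC4' a ha with h | h | h | h
      · subst h
        rcases H63B.deg3 hb2 (sw a1) (sw a3) hx (Ne.symm hpq0) with h | h
        · rw [h]; exact hd2' hbq0
        · rw [h]; exact hd2' hbp0
      · subst h
        rcases t2 x (hF2 hx) with h | h
        · rw [h]; exact hbC
        · rw [h]; exact hcC
      · subst h
        rcases s2 x (hF2 hx) with h | h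
        · rw [h]; exact hbC
        · rw [h]; exact hcC
      · subst h
        rcases H63B.deg3 hc2 (sw a2) (sw a4) hx (Ne.symm hpq0) with h | h
        · rw [h]; exact hd2' hbq0
        · rw [h]; exact hd2' hbp0
    · rw [hcov d (mem_insert_self _ _)]
      omega

/-- THE EXCHANGE for covers by cycles of length at least five, or by one cycle, in a 2-connected graph. -/
theorem exCv {E : Finset (Sym2 V)} {Y A U : Finset V} {b d : V} (hT : LD.TCY E Y)
    (hb : Cv E (insert b A)) (hd : Cv E (insert d A)) (hbU : b ∈ U) (hdU : d ∈ U) (hU : ¬ Disc U E)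
    (hin : ∀ u ∈ U, u ≠ b → u ≠ d → ¬ Cv E (insert u A)) : Cv E (insert b (insert d A)) := by
  by_cases h1 : H8F.Cov5 E (insert b A)
  · by_cases h2 : H8F.Cov5 E (insert d A)
    · exact Or.inl (H9TP.exch5_set hT.loop h1 h2 hbU hdU hU fun u hu h3 h4 h5 => hin u hu h3 h4 (Or.inl h5))
    · have h3 := half hT (hd.resolve_left h2) h2 hb hU hdU hbU fun u hu h3 h4 h5 => hin u hu h4 h3 (Or.inr h5)
      rw [Finset.insert_comm]
      exact Or.inr h3
  · exact Or.inr (half hT (hb.resolve_left h1) h1 hd hU hbU hdU fun u hu h3 h4 h5 => hin u hu h3 h4 (Or.inr h5))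

end H56CV
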