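import Pool.Agent.Lib.H47G5.Cv
import Pool.Agent.Lib.H56CV.A

/-!
# H56CV, file B: `H47G5.OneCyc` for pairs
-/

set_option autoImplicit false

namespace H56CV

open Finset H98M H85TF

/-- (A) TWO VERTICES OF A 2-CONNECTED GRAPH LIE ON ONE CYCLE. -/
theorem oneCyc_pair {V : Type} [Fintype V] [DecidableEq V] {E : Finset (Sym2 V)} {Y : Finset V}
    (hT : LD.TCY E Y) {a b : V} (ha : a ∈ Y) (hb : b ∈ Y) : H47G5.OneCyc E {a, b} := by
  obtain ⟨F, h1, h2, h3, h4, h5⟩ := pair_raw hT ha hb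
  refine ⟨F, h1, ⟨h2, h5⟩, fun v hv => ?_⟩
  rcases mem_insert.1 hv with h | h
  · rw [h]
    exact h3
  · rw [mem_singleton.1 h]
    exact h4

end H56CV
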