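import Pool.Agent.Lib.H56CV.B

/-!
# H56CV, file D: 2-connected graphs with at most four vertices are Hamiltonian
-/

set_option autoImplicit false

namespace H56CV

open Finset H98M H85TF

section two

variable {V : Type*} [DecidableEq V]

theorem two_nb {F : Finset (Sym2 V)} {z : V} (h : dg F z = 2) :
    ∃ x y, x ≠ y ∧ s(z, x) ∈ F ∧ s(z, y) ∈ F := by
  unfold dg at h
  obtain ⟨e, f, hef, he⟩ := card_eq_two.1 h
  have h1 : e ∈ F.filter fun e => z ∈ e := by rw [he]; simp
  have h2 : f ∈ F.filter fun e => z ∈ e := by rw [he]; simp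
  rw [mem_filter] at h1 h2
  obtain ⟨x, rfl⟩ := Sym2.mem_iff_exists.1 h1.2
  obtain ⟨y, rfl⟩ := Sym2.mem_iff_exists.1 h2.2
  exact ⟨x, y, fun hxy => hef (by rw [hxy]), h1.1, h2.1⟩

/-- If `z` has at most two possible neighbours then both have degree two. -/
theorem all_nb {E F : Finset (Sym2 V)} {Y : Finset V} (hT : LD.TCY E Y) (hF : F ⊆ E)
    (hd : ∀ v, dg F v = 0 ∨ dg F v = 2) {z : V} (hz : dg F z = 2) {N : Finset V} (hN : N.card ≤ 2)
    (hnb : ∀ x ∈ Y, x ≠ z → s(z, x) ∈ E → x ∈ N) : ∀ x ∈ N, dg F x = 2 := by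
  obtain ⟨x, y, hxy, hx, hy⟩ := two_nb hz
  have hin : ∀ v, s(z, v) ∈ F → v ∈ N := fun v hv =>
    hnb v (hT.sub _ (hF hv) v (by simp)) (fun h => hT.loop _ (hF hv) (by rw [h]; simp)) (hF hv)
  have hN2 : ({x, y} : Finset V) = N := by
    refine eq_of_subset_of_card_le ?_ (by rw [card_pair hxy]; exact hN)
    intro v hv
    rcases mem_insert.1 hv with h | h
    · rw [h]
      exact hin x hx
    · rw [mem_singleton.1 h]
      exact hin y hy
  intro v hv
  rw [← hN2] at hv
  have hv' : s(z, v) ∈ F := by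
    rcases mem_insert.1 hv with h | h
    · rw [h]
      exact hx
    · rw [mem_singleton.1 h]
      exact hy
  have := dg_pos' hv'
  rcases hd v with h | h
  · omega
  · exact h

end two

/-- (D) A 2-connected graph with at most four vertices has a Hamiltonian cycle. -/
theorem oneCyc_small {V : Type} [Fintype V] [DecidableEq V] {E : Finset (Sym2 V)} {Y : Finset V}
    (hT : LD.TCY E Y) (h4 : Y.card ≤ 4) : H47G5.OneCyc E Y := by
  have h3 := hT.three
  by_cases hc : ∀ a ∈ Y, ∀ b ∈ Y, a ≠ b → s(a, b) ∈ E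
  · rcases Nat.lt_or_ge Y.card 4 with hlt | hge
    · obtain ⟨a, ha⟩ : Y.Nonempty := card_pos.1 (by omega)
      obtain ⟨F, h1, h2, h5, -, h6⟩ := pair_raw hT ha ha
      have hall := all_nb hT h1 h2 h5 (N := Y.erase a) (by rw [card_erase_of_mem ha]; omega)
        (fun x hx hxa _ => mem_erase.2 ⟨hxa, hx⟩)
      refine ⟨F, h1, ⟨h2, h6⟩, fun v hv => ?_⟩
      by_cases hva : v = a
      · rw [hva]
        exact h5
      · exact hall v (mem_erase.2 ⟨hva, hv⟩)
    · have hY : Y.card = 4 := by omega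
      obtain ⟨z, hz⟩ : Y.Nonempty := card_pos.1 (by omega)
      obtain ⟨a, b, c, hab, hac, hbc, he⟩ := card_eq_three.1
        (show (Y.erase z).card = 3 by rw [card_erase_of_mem hz]; omega)
      have hm : ∀ x, x ∈ Y.erase z ↔ x = a ∨ x = b ∨ x = c := by
        intro x
        rw [he]
        simp
      have ha := mem_erase.1 ((hm a).2 (Or.inl rfl))
      have hb := mem_erase.1 ((hm b).2 (Or.inr (Or.inl rfl)))
      have hc' := mem_erase.1 ((hm c).2 (Or.inr (Or.inr rfl)))
      have adj1 : (SimpleGraph.fromEdgeSet (E : Set (Sym2 V))).Adj a b := by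
        rw [SimpleGraph.fromEdgeSet_adj]
        exact ⟨by exact_mod_cast hc a ha.2 b hb.2 hab, hab⟩
      have adj2 : (SimpleGraph.fromEdgeSet (E : Set (Sym2 V))).Adj b c := by
        rw [SimpleGraph.fromEdgeSet_adj]
        exact ⟨by exact_mod_cast hc b hb.2 c hc'.2 hbc, hbc⟩
      obtain ⟨F, h1, h2, h5, h6, h7⟩ := close_path (z := z)
        (SimpleGraph.Walk.cons adj1 (SimpleGraph.Walk.cons adj2 SimpleGraph.Walk.nil))
        (by
          rw [SimpleGraph.Walk.isPath_def]
          simp [hab, hac, hbc]) hac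
        (by
          intro x hx
          simp only [SimpleGraph.Walk.support_cons, SimpleGraph.Walk.support_nil, List.mem_cons,
            List.not_mem_nil, or_false] at hx
          rcases hx with h | h | h
          · rw [h]
            exact ha.1
          · rw [h]
            exact hb.1
          · rw [h]
            exact hc'.1)
        (hc z hz a ha.2 (Ne.symm ha.1)) (hc z hz c hc'.2 (Ne.symm hc'.1))
      refine ⟨F, h1, ⟨h2, h7⟩, fun v hv => ?_⟩
      by_cases hvz : v = z
      · rw [hvz]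
        exact h5
      · refine h6 v ?_
        simp only [SimpleGraph.Walk.support_cons, SimpleGraph.Walk.support_nil, List.mem_cons,
          List.not_mem_nil, or_false]
        exact (hm v).1 (mem_erase.2 ⟨hvz, hv⟩)
  · push Not at hc
    obtain ⟨z, hz, w, hw, hzw, hn⟩ := hc
    obtain ⟨F, h1, h2, h5, h6, h7⟩ := pair_raw hT hz hw
    have hall := all_nb hT h1 h2 h5 (N := (Y.erase z).erase w)
      (by
        rw [card_erase_of_mem (mem_erase.2 ⟨Ne.symm hzw, hw⟩), card_erase_of_mem hz]
        omega)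
      (fun x hx hxz hx' => mem_erase.2 ⟨fun h => hn (h ▸ hx'), mem_erase.2 ⟨hxz, hx⟩⟩)
    refine ⟨F, h1, ⟨h2, h7⟩, fun v hv => ?_⟩
    by_cases hvz : v = z
    · rw [hvz]
      exact h5
    · by_cases hvw : v = w
      · rw [hvw]
        exact h6
      · exact hall v (mem_erase.2 ⟨hvw, mem_erase.2 ⟨hvz, hv⟩⟩)

end H56CV
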