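import Pool.Agent.Lib.H56CV.D
import Pool.Agent.Lib.H63B.B
import Pool.Agent.Lib.H77D5.E
import Pool.Agent.Lib.H47G5.Abs

/-!
# H56CV, file F: all facts on cycles for `H47G5.main5`
-/

set_option autoImplicit false

namespace H56CV

open Finset H98M H85TF LD SimpleDraw

theorem cycFacts (V : Type) [Fintype V] [DecidableEq V] : H47G5.CycFacts V where
  pair _ _ _ _ hT ha hb := oneCyc_pair hT ha hb
  base _ _ _ hT hno h5 h := H63B.oneCyc_cov5 hT hno h5 h
  red _ _ _ _ _ _ _ hT hs h := H77D5.cv_red hT hs h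
  four _ _ hT h := oneCyc_small hT h
  cyc _ _ hT h := H77D5.oneCyc_all hT h

/-- FORM D with cycles of length at least five. -/
theorem main : ∀ (n : ℕ), 3 ≤ n → ∀ D : SimpleDrawing n,
    ∃ G H F : SimpleGraph (Fin n), D.Plane G ∧
    F ≤ H ∧ H ≤ G ∧ H.Connected ∧ (∀ v : Fin n, (H.induce {w | w ≠ v}).Connected) ∧
    H.edgeSet.ncard = 2 * n - 3 ∧ (∀ v : Fin n, (F.neighborSet v).ncard = 2) ∧
    ((∃ (v : Fin n) (c : F.Walk v v), c.IsHamiltonianCycle) ∨
      (∀ (v : Fin n) (c : F.Walk v v), c.IsCycle → 5 ≤ c.length) ∧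
      ∀ u v : Fin n, (G.induce {w | w ≠ u ∧ w ≠ v}).Connected) :=
  H47G5.main5 fun n => cycFacts (Fin n)

end H56CV
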