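import Pool.Agent.Lib.H56CV.X
import Pool.Agent.Lib.H77D5.Abs7

/-!
# H56CV, file G: form A (MP_33911d): the exchange put into `H77D5.mainA_of`
-/

set_option autoImplicit false

namespace H56CV

open SimpleDraw

theorem ex (V : Type) [Fintype V] [DecidableEq V] : H77D5.ExCv V :=
  fun _ _ _ _ _ _ hT _ _ hb hd hU h1 h2 hin => exCv hT h1 h2 hb hd hU hin

/-- FORM A: the one statement with cycles of length at least `min n 5` for every `R`. -/
theorem mainA {n : ℕ} (hn : 4 ≤ n) (D : SimpleDrawing n) (R : SimpleGraph (Fin n)) :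
    ∃ G H F : SimpleGraph (Fin n), D.Plane G ∧ H77D4.unc D ≤ G ∧ H ≤ G ∧ F ≤ H ∧ H.Connected ∧
      (∀ v, (H.induce {w | w ≠ v}).Connected) ∧ H.edgeSet.ncard = 2 * n - 3 ∧
      (∀ v, (F.neighborSet v).ncard = 2) ∧
      (∀ (v : Fin n) (c : F.Walk v v), c.IsCycle → min n 5 ≤ c.length) ∧
      ((R ≤ F ∧ H77D4.unc D ≤ F ∧ ∃ (v : Fin n) (c : F.Walk v v), c.IsHamiltonianCycle) ∨
        ∀ u v, ((G ⊔ R).induce {w | w ≠ u ∧ w ≠ v}).Connected) :=
  H77D5.mainA_of (ex _) hn D R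

end H56CV
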