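import Pool.Agent.Lib.H56CV.B
import Pool.Agent.Lib.H63B.B
import Pool.Agent.Lib.H30D.C4

/-!
# H56CV, file X1: pieces of the exchange for `Cv`
-/

set_option autoImplicit false
set_option linter.unusedSectionVars false

namespace H56CV

open Finset H98M H85TF H36R H47G5

variable {V : Type*} [Fintype V] [DecidableEq V]

/-- A path from `a` to `b` through a connected set, with prescribed second and last but one vertices. -/
theorem route {E : Finset (Sym2 V)} {K : Finset V} (hK : ¬ Disc K E) {a b ka kb : V} (haK : a ∉ K) (hbK : b ∉ K)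
    (hab : a ≠ b) (hka : ka ∈ K) (hkb : kb ∈ K) (h1 : s(a, ka) ∈ E) (h2 : s(b, kb) ∈ E) :
    ∃ p : (SimpleGraph.fromEdgeSet (E : Set (Sym2 V))).Walk a b, p.IsPath ∧ ka ∈ p.support ∧ kb ∈ p.support ∧
      ∀ x ∈ p.support, x = a ∨ x = b ∨ x ∈ K := by
  obtain ⟨q, hq, hqK⟩ := path_of_not_disc hK hka hkb
  have e1 : (SimpleGraph.fromEdgeSet (E : Set (Sym2 V))).Adj a ka := by
    rw [SimpleGraph.fromEdgeSet_adj]
    exact ⟨by exact_mod_cast h1, fun h => haK (h ▸ hka)⟩
  have e2 : (SimpleGraph.fromEdgeSet (E : Set (Sym2 V))).Adj kb b := by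
    rw [SimpleGraph.fromEdgeSet_adj, Sym2.eq_swap]
    exact ⟨by exact_mod_cast h2, fun h => hbK (h ▸ hkb)⟩
  have hsup : (SimpleGraph.Walk.cons e1 (q.append (SimpleGraph.Walk.cons e2 SimpleGraph.Walk.nil))).support =
      a :: (q.support ++ [b]) := by
    rw [SimpleGraph.Walk.support_cons, SimpleGraph.Walk.support_append]
    simp
  refine ⟨SimpleGraph.Walk.cons e1 (q.append (SimpleGraph.Walk.cons e2 SimpleGraph.Walk.nil)), ?_, ?_, ?_, ?_⟩
  · rw [SimpleGraph.Walk.isPath_def, hsup, List.nodup_cons]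
    refine ⟨?_, ?_⟩
    · intro h
      rcases List.mem_append.1 h with h | h
      · exact haK (hqK a h)
      · exact hab (by simpa using h)
    · refine List.Nodup.append (by rw [← SimpleGraph.Walk.isPath_def]; exact hq) (by simp) ?_
      intro x hx hx'
      rw [List.mem_singleton] at hx'
      subst hx'
      exact hbK (hqK x hx)
  · rw [hsup]
    exact List.mem_cons_of_mem _ (List.mem_append_left _ q.start_mem_support)
  · rw [hsup]
    exact List.mem_cons_of_mem _ (List.mem_append_left _ q.end_mem_support)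
  · intro x hx
    rw [hsup] at hx
    rcases List.mem_cons.1 hx with h | h
    · exact Or.inl h
    · rcases List.mem_append.1 h with h | h
      · exact Or.inr (Or.inr (hqK x h))
      · exact Or.inr (Or.inl (by simpa using h))

/-- The extension step along a given path. -/
theorem ext_path {E F : Finset (Sym2 V)} (hE : ∀ e ∈ E, ¬ e.IsDiag) (hF : F ⊆ E) (h1 : OneF F) {a b : V}
    (hab : s(a, b) ∈ F) (p : (SimpleGraph.fromEdgeSet (E : Set (Sym2 V))).Walk a b) (hp : p.IsPath)
    (hpin : ∀ r ∈ p.support, r ≠ a → r ≠ b → dg F r = 0) :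
    ∃ F' ⊆ E, OneF F' ∧ (∀ v, dg F v = 2 → dg F' v = 2) ∧ ∀ r ∈ p.support, dg F' r = 2 := by
  have hne : a ≠ b := fun h => hE _ (hF hab) (by simpa using h)
  have hdg := dg_erase hab
  have ha2 : dg F a = 2 := (h1.1 a).resolve_left (dg_pos hab).ne'
  have hb2 : dg F b = 2 := (h1.1 b).resolve_left (dg_pos' hab).ne'
  have hv0 : ∀ v, v ≠ a → v ≠ b → dg (F.erase s(a, b)) v = dg F v := by
    intro v h1 h2
    have := hdg v
    rw [if_neg (not_or.2 ⟨h1, h2⟩)] at this
    omega
  have ha1 : dg (F.erase s(a, b)) a = 1 := by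
    have := hdg a
    rw [if_pos (Or.inl rfl)] at this
    omega
  have hb1 : dg (F.erase s(a, b)) b = 1 := by
    have := hdg b
    rw [if_pos (Or.inr rfl)] at this
    omega
  obtain ⟨F', h2, h3, h4, h5, h6, h7⟩ := H63B.addPathC p hp (F.erase s(a, b)) ((erase_subset _ _).trans hF) hne
    (notMem_erase _ _) ha1 hb1 (fun v hva hvb => by rw [hv0 v hva hvb]; exact h1.1 v)
    (fun r hr hra hrb => by rw [hv0 r hra hrb]; exact hpin r hr hra hrb)
  have has : a ∈ p.support := by simp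
  have hbs : b ∈ p.support := by simp
  refine ⟨F', h2, ⟨h3, ?_⟩, ?_, h5⟩
  · intro T hT x hx hx0 y hy0
    have hTF : ∀ u ∈ T, ∀ w, s(u, w) ∈ F → w ∈ T := by
      intro u hu w huw
      by_cases h8 : s(u, w) = s(a, b)
      · rw [Sym2.eq_iff] at h8
        rcases h8 with ⟨rfl, rfl⟩ | ⟨rfl, rfl⟩
        · exact h7 T hT _ has hu _ hbs
        · exact h7 T hT _ hbs hu _ has
      · exact hT u hu w (h4 (mem_erase.2 ⟨h8, huw⟩))
    have hdF : ∀ v, dg (F.erase s(a, b)) v ≠ 0 → dg F v ≠ 0 := by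
      intro v hv
      have := hdg v
      omega
    have haT : a ∈ T := by
      rcases h6 x hx0 with h8 | h8
      · exact h1.2 T hTF x hx (hdF x h8) a (dg_pos hab).ne'
      · exact h7 T hT x h8 hx a has
    rcases h6 y hy0 with h8 | h8
    · exact h1.2 T hTF a haT (dg_pos hab).ne' y (hdF y h8)
    · exact h7 T hT a has haT y h8
  · intro v hv
    by_cases hva : v = a
    · rw [hva]; exact h5 a has
    · by_cases hvb : v = b
      · rw [hvb]; exact h5 b hbs
      · have h8 : dg (F.erase s(a, b)) v = 2 := by rw [hv0 v hva hvb]; exact hv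
        refine (h3 v).resolve_left fun h9 => ?_
        have h10 : dg (F.erase s(a, b)) v ≤ dg F' v := card_le_card (filter_subset_filter _ h4)
        omega

/-- The extension step through a connected set, with prescribed end-vertices. -/
theorem ext_conn {E F : Finset (Sym2 V)} (hE : ∀ e ∈ E, ¬ e.IsDiag) (hF : F ⊆ E) (h1 : OneF F) {K : Finset V}
    (hK : ¬ Disc K E) (hK0 : ∀ k ∈ K, dg F k = 0) {a b ka kb : V} (hab : s(a, b) ∈ F) (hka : ka ∈ K) (hkb : kb ∈ K)
    (ha : s(a, ka) ∈ E) (hb : s(b, kb) ∈ E) :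
    ∃ F' ⊆ E, OneF F' ∧ (∀ v, dg F v = 2 → dg F' v = 2) ∧ dg F' ka = 2 ∧ dg F' kb = 2 := by
  have hne : a ≠ b := fun h => hE _ (hF hab) (by simpa using h)
  have haK : a ∉ K := fun h => by
    have h2 := hK0 a h
    have := dg_pos hab
    omega
  have hbK : b ∉ K := fun h => by
    have h2 := hK0 b h
    have := dg_pos' hab
    omega
  obtain ⟨p, hp, h2, h3, h4⟩ := route hK haK hbK hne hka hkb ha hb
  obtain ⟨F', g1, g2, g3, g4⟩ := ext_path hE hF h1 hab p hp (fun r hr hra hrb =>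
    hK0 r (((h4 r hr).resolve_left hra).resolve_left hrb))
  exact ⟨F', g1, g2, g3, g4 ka h2, g4 kb h3⟩

/-- A path from `a` to `c` which avoids `z`, closed by the edges `z a`, `z c`, with control of the support. -/
theorem close_path2 {E : Finset (Sym2 V)} {z a c : V}
    (r : (SimpleGraph.fromEdgeSet (E : Set (Sym2 V))).Walk a c) (hr : r.IsPath) (hac : a ≠ c)
    (hrz : ∀ x ∈ r.support, x ≠ z) (hza : s(z, a) ∈ E) (hzc : s(z, c) ∈ E) :
    ∃ F ⊆ E, OneF F ∧ dg F z = 2 ∧ (∀ x ∈ r.support, dg F x = 2) ∧ s(z, a) ∈ F ∧ s(z, c) ∈ F ∧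
      ∀ v, dg F v ≠ 0 → v = z ∨ v ∈ r.support := by
  have haz : a ≠ z := hrz a r.start_mem_support
  have hcz : c ≠ z := hrz c r.end_mem_support
  have hn1 : s(z, c) ∉ (∅ : Finset (Sym2 V)) := notMem_empty _
  have hn2 : s(z, a) ∉ insert s(z, c) (∅ : Finset (Sym2 V)) := by
    intro h
    rcases mem_insert.1 h with h | h
    · rw [Sym2.eq_iff] at h
      rcases h with h | h
      · exact hac h.2
      · exact hcz h.1.symm
    · exact notMem_empty _ h
  have key : ∀ x, dg (insert s(z, a) (insert s(z, c) (∅ : Finset (Sym2 V)))) x =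
      (if x = z ∨ x = c then 1 else 0) + if x = z ∨ x = a then 1 else 0 := by
    intro x
    rw [dg_insert hn2, dg_insert hn1]
    simp [dg]
  obtain ⟨F', h1, h2, h4, h5, h6, h7, h8⟩ := addPath2 r hr (insert s(z, a) (insert s(z, c) ∅))
    (insert_subset hza (insert_subset hzc (empty_subset _))) hac
    (by
      intro h
      rcases mem_insert.1 h with h | h
      · rw [Sym2.eq_iff] at h
        rcases h with h | h
        · exact haz h.1
        · exact hcz h.2
      · rcases mem_insert.1 h with h | h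
        · rw [Sym2.eq_iff] at h
          rcases h with h | h
          · exact haz h.1
          · exact hac h.1
        · exact notMem_empty _ h)
    (by rw [key]; simp [haz, hac])
    (by rw [key]; simp [hcz, Ne.symm hac])
    (by
      intro x hx1 hx2
      rw [key]
      by_cases hx : x = z
      · subst hx; simp
      · simp [hx, hx1, hx2])
    (by
      intro x hx hx1 hx2
      rw [key]
      simp [hrz x hx, hx1, hx2])
  have hz2 : dg F' z = 2 := h5 z (by rw [key]; simp)
  have hin : ∀ v, dg F' v ≠ 0 → v ≠ z → v ∈ r.support := by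
    intro v hv hvz
    rcases h8 v hv with h9 | h9
    · rw [key] at h9
      by_cases h10 : v = c
      · rw [h10]
        exact r.end_mem_support
      · by_cases h11 : v = a
        · rw [h11]
          exact r.start_mem_support
        · exact absurd (by simp [hvz, h10, h11]) h9
    · exact h9
  refine ⟨F', h1, ⟨h2, ?_⟩, hz2, h4, h6 (mem_insert_self _ _), h6 (mem_insert_of_mem (mem_insert_self _ _)), ?_⟩
  · intro T hT x hx hx0 y hy0
    have hwalk := walk_closed (F := F') (T := T) hT r h7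
    have hza' : z ∈ T ↔ a ∈ T :=
      ⟨fun h => hT z h a (h6 (mem_insert_self _ _)), fun h => hT a h z (by
        rw [Sym2.eq_swap]
        exact h6 (mem_insert_self _ _))⟩
    have hall : ∀ v, dg F' v ≠ 0 → (v ∈ T ↔ a ∈ T) := by
      intro v hv
      by_cases hvz : v = z
      · rw [hvz]
        exact hza'
      · exact hwalk v (hin v hv hvz)
    exact (hall y hy0).2 ((hall x hx0).1 hx)
  · intro v hv
    by_cases hvz : v = z
    · exact Or.inl hvz
    · exact Or.inr (hin v hv hvz)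

/-- A component. -/
theorem comp {E : Finset (Sym2 V)} {S : Finset V} {w : V} (hw : w ∈ S) :
    ∃ K ⊆ S, w ∈ K ∧ ¬ Disc K E ∧ ∀ k ∈ K, ∀ x ∈ S, s(k, x) ∈ E → x ∈ K := by
  classical
  obtain ⟨K, hKm, hKmax⟩ := (S.powerset.filter fun K => w ∈ K ∧ ¬ Disc K E).exists_max_image
    (fun K => K.card) ⟨{w}, mem_filter.2 ⟨mem_powerset.2 (singleton_subset_iff.2 hw), mem_singleton_self w,
      H30D.not_disc_singleton w⟩⟩
  rw [mem_filter, mem_powerset] at hKm
  refine ⟨K, hKm.1, hKm.2.1, hKm.2.2, fun k hk x hx hkx => ?_⟩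
  by_contra hxK
  have h1 := hKmax (insert x K) (mem_filter.2 ⟨mem_powerset.2 (insert_subset hx hKm.1),
    mem_insert_of_mem hKm.2.1, H63B.conn_insert hKm.2.2 hk hkx⟩)
  rw [card_insert_of_notMem hxK] at h1
  omega

/-- A component of `Y - C` has a neighbour in `C` different from a given vertex. -/
theorem second {E : Finset (Sym2 V)} {Y C K : Finset V} (hT : LD.TCY E Y) (hKS : K ⊆ Y \ C) (hK0 : K.Nonempty)
    (hcl : ∀ k ∈ K, ∀ x ∈ Y \ C, s(k, x) ∈ E → x ∈ K) {b : V} (hb : b ∈ C) (hbY : b ∈ Y) {c : V} (hc : c ∈ C)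
    (hcY : c ∈ Y) (hcb : c ≠ b) : ∃ c ∈ C, c ≠ b ∧ ∃ k ∈ K, s(c, k) ∈ E := by
  by_contra hcon
  push Not at hcon
  refine hT.conn' b hbY ⟨K, (Y.erase b) \ K, hK0, ⟨c, ?_⟩, disjoint_sdiff, union_sdiff_of_subset ?_, ?_⟩
  · rw [mem_sdiff, mem_erase]
    exact ⟨⟨hcb, hcY⟩, fun h => (mem_sdiff.1 (hKS h)).2 hc⟩
  · intro k hk
    have := mem_sdiff.1 (hKS hk)
    exact mem_erase.2 ⟨fun h => this.2 (h ▸ hb), this.1⟩
  · intro k hk x hx hkx
    rw [mem_sdiff, mem_erase] at hx
    by_cases hxC : x ∈ C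
    · exact hcon x hxC hx.1.1 k hk (by rw [Sym2.eq_swap]; exact hkx)
    · exact hx.2 (hcl k hk x (mem_sdiff.2 ⟨hx.1.2, hxC⟩) hkx)

/-- A connected set which meets a set closed in it is inside. -/
theorem inside {E : Finset (Sym2 V)} {S K K' : Finset V} (hK' : ¬ Disc K' E) (hS : K' ⊆ S)
    (hcl : ∀ k ∈ K, ∀ x ∈ S, s(k, x) ∈ E → x ∈ K) {k : V} (hk : k ∈ K) (hk' : k ∈ K') : K' ⊆ K := by
  by_contra hcon
  obtain ⟨w, hw, hwK⟩ := not_subset.1 hcon
  refine hK' ⟨K' ∩ K, K' \ K, ⟨k, mem_inter.2 ⟨hk', hk⟩⟩, ⟨w, mem_sdiff.2 ⟨hw, hwK⟩⟩, ?_, ?_, ?_⟩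
  · exact disjoint_left.2 fun x hx hx' => (mem_sdiff.1 hx').2 (mem_inter.1 hx).2
  · ext x
    simp only [mem_union, mem_inter, mem_sdiff]
    tauto
  · intro x hx y hy hxy
    exact (mem_sdiff.1 hy).2 (hcl x (mem_inter.1 hx).2 y (hS (mem_sdiff.1 hy).1) hxy)

end H56CV
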